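import Pool.Agent.Helper60.CXF.Con1
import Pool.Agent.Helper94.CXF.F3b

/-!
FARL, row CON, second part: the reference vectors.
-/

set_option autoImplicit false
noncomputable section
namespace Pool.Agent.Helper94.CXF.SD

open Pool.Agent.Helper6.MONO
open Pool.Agent.Helper21.SUP (GS DG DG_nx)
open Pool.Agent.Helper94.CXF (M9)
open Pool.Agent.Helper94.CXF
open Pool.Agent.Helper6.MONO.SV (UY)

/-- reference vectors of the chart `Y`, times `k² g dn`; `a` is `1 - v1`, `b` is `v2` -/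
def TYr (o : Bool) (k h g a b : ℝ) : M9 ℝ × M9 ℝ :=
  if o then
    (⟨2 * (h * k), 0, 0, b * (h * g), 0, 0, a * (k * (h * g)) + b * (k * (h * g)) / 2 ^ 1, 0, 0⟩,
      ⟨k * (k * g), 0, 0, 0, 0, 0, a * (k * k * (g * g)) / 2 ^ 1, 0, 0⟩)
  else
    (⟨k * (k * g), 0, 0, a * (k * k * (g * g)) / 2 ^ 1, 0, 0, b * (h * g), 0, 0⟩,
      ⟨2 * (h * k), 0, 0, a * (k * (h * g)) + b * (k * (h * g)) / 2 ^ 1, 0, 0, 0, 0, 0⟩)

/-- reference vector of the chart `L`, `(1, 2/5, 1/2)`, times `k²` -/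
def TLr (o : Bool) (k h g : ℝ) : M9 ℝ × M9 ℝ :=
  (if o then ⟨k * k, 0, 0, 4 / 5, 0, 0, k * k * (g * g) / 2 ^ 2 - k * k, 0, 0⟩
    else ⟨k * k, 0, 0, k * k * g / 2 ^ 2, 0, 0, 4 / 5 * h, 0, 0⟩, z9)

/-- reference vector `(1, ω, ω - 1/5)` of the chart `L`, times `k² g dn` -/
def TLYr (o : Bool) (k h g : ℝ) : M9 ℝ × M9 ℝ :=
  if o then
    (⟨2 * (h * k), 0, 0, 0, 0, 0, 6 / 5 * (h * k * (g * g)) - 2 * (h * k), 0, 0⟩,
      ⟨k * (k * g), 0, 0, g, 0, 0, 7 / 20 * (k * k * (g * (g * g))) - k * (k * g), 0, 0⟩)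
  else
    (⟨k * (k * g), 0, 0, 7 / 20 * (k * k * (g * g)), 0, 0, h * g, 0, 0⟩,
      ⟨2 * (h * k), 0, 0, 6 / 5 * (k * (h * g)), 0, 0, 0, 0, 0⟩)

/-! ### constants -/

theorem ap_c45 : Ap 1 1 (4 / 5) KN.c45 := by
  refine ⟨by norm_num, by norm_num, ?_⟩
  have e : ((KN.c45 : ℕ) : ℝ) = 225179981368525 := by
    change ((225179981368525 : ℕ) : ℝ) = _
    norm_num
  rw [e, abs_le]
  norm_num

theorem ap_c720 : Ap 1 (7 / 20) (7 / 20) KN.c720 := by
  refine ⟨by norm_num, by norm_num, ?_⟩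
  have e : ((KN.c720 : ℕ) : ℝ) = 98516241848730 := by
    change ((98516241848730 : ℕ) : ℝ) = _
    norm_num
  rw [e, abs_le]
  norm_num

theorem ap_c65 : Ap 1 (6 / 5) (6 / 5) KN.c65 := by
  refine ⟨by norm_num, by norm_num, ?_⟩
  have e : ((KN.c65 : ℕ) : ℝ) = 337769972052787 := by
    change ((337769972052787 : ℕ) : ℝ) = _
    norm_num
  rw [e, abs_le]
  norm_num

theorem ap_a03 : Ap 1 1 (7 / 10) KN.a03 := by
  refine ⟨by norm_num, by norm_num, ?_⟩
  have e : ((KN.a03 : ℕ) : ℝ) = 197032483697459 := by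
    change ((197032483697459 : ℕ) : ℝ) = _
    norm_num
  rw [e, abs_le]
  norm_num

theorem ap_a03e : Ap 1 1 (7 / 10 - 1 / 128) KN.a03e := by
  refine ⟨by norm_num, by norm_num, ?_⟩
  have e : ((KN.a03e : ℕ) : ℝ) = 194833460441907 := by
    change ((194833460441907 : ℕ) : ℝ) = _
    norm_num
  rw [e, abs_le]
  norm_num

theorem ap_b1e : Ap 1 2 (1 + 1 / 128) KN.b1e := by
  refine ⟨by norm_num, by norm_num, ?_⟩
  have e : ((KN.b1e : ℕ) : ℝ) = 283673999966208 := by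
    change ((283673999966208 : ℕ) : ℝ) = _
    norm_num
  rw [e, abs_le]
  norm_num

theorem ap_b1 : Ap 1 2 1 KN.u1N := ap_one.mono (by norm_num) (by norm_num)

/-! ### representation -/

section
variable {k h g a b : ℝ} {kN hN gN aN bN : ℕ}

theorem ok_TY (o : Bool) (hk : Ap 1 2 k kN) (hh : Ap 1 2 h hN) (hg : Ap 1 2 g gN)
    (ha : Ap 1 1 a aN) (hb : Ap 1 2 b bN) :
    (∃ Z, OkT (TYr o k h g a b).1 (KN.TYN o kN hN gN aN bN).1 Z) ∧
      (∃ Z, OkT (TYr o k h g a b).2 (KN.TYN o kN hN gN aN bN).2 Z) := by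
  have hkk := hk.mul hk (by norm_num)
  have hgg := hg.mul hg (by norm_num)
  have hhg := hh.mul hg (by norm_num)
  have hhk := hh.mul hk (by norm_num)
  have hkg := hk.mul hg (by norm_num)
  have hkkg := hk.mul hkg (by norm_num)
  have hkhg := hk.mul hhg (by norm_num)
  have hq := (ha.mul (hkk.mul hgg (by norm_num)) (by norm_num)).shr 1
  have hb1 := hb.mul hhg (by norm_num)
  have hs := (ha.mul hkhg (by norm_num)).add ((hb.mul hkhg (by norm_num)).shr 1)
  have e1 := hkkg.en (by norm_num) (by norm_num)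
  have e2 := hhk.two.en (by norm_num) (by norm_num)
  have e3 := hq.en (by norm_num) (by norm_num)
  have e4 := hb1.en (by norm_num) (by norm_num)
  have e5 := hs.en (by norm_num) (by norm_num)
  cases o
  · exact ⟨ok_of e1 en_zero en_zero e3 en_zero en_zero e4 en_zero en_zero,
      ok_of e2 en_zero en_zero e5 en_zero en_zero en_zero en_zero en_zero⟩
  · exact ⟨ok_of e2 en_zero en_zero e4 en_zero en_zero e5 en_zero en_zero,
      ok_of e1 en_zero en_zero en_zero en_zero en_zero e3 en_zero en_zero⟩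

theorem ok_TL (o : Bool) (hk : Ap 1 2 k kN) (hh : Ap 1 2 h hN) (hg : Ap 1 2 g gN) :
    (∃ Z, OkT (TLr o k h g).1 (KN.TLN o kN hN gN).1 Z) ∧
      (∃ Z, OkT (TLr o k h g).2 (KN.TLN o kN hN gN).2 Z) := by
  have hkk := hk.mul hk (by norm_num)
  have hgg := hg.mul hg (by norm_num)
  have e1 := hkk.en (by norm_num) (by norm_num)
  refine ⟨?_, ok_z9⟩
  cases o
  · exact ok_of e1 en_zero en_zero (((hkk.mul hg (by norm_num)).shr 2).en (by norm_num)
      (by norm_num)) en_zero en_zero ((ap_c45.mul hh (by norm_num)).en (by norm_num)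
      (by norm_num)) en_zero en_zero
  · exact ok_of e1 en_zero en_zero (ap_c45.en (by norm_num) (by norm_num)) en_zero en_zero
      (((hkk.mul hgg (by norm_num)).shr 2).sub hkk (by norm_num) (by norm_num) (by norm_num))
      en_zero en_zero

theorem ok_TLY (o : Bool) (hk : Ap 1 2 k kN) (hh : Ap 1 2 h hN) (hg : Ap 1 2 g gN) :
    (∃ Z, OkT (TLYr o k h g).1 (KN.TLY o kN hN gN).1 Z) ∧
      (∃ Z, OkT (TLYr o k h g).2 (KN.TLY o kN hN gN).2 Z) := by
  have hkk := hk.mul hk (by norm_num)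
  have hgg := hg.mul hg (by norm_num)
  have hhg := hh.mul hg (by norm_num)
  have hhk := hh.mul hk (by norm_num)
  have hkg := hk.mul hg (by norm_num)
  have hkkg := hk.mul hkg (by norm_num)
  have hkhg := hk.mul hhg (by norm_num)
  have hggg := hg.mul hgg (by norm_num)
  have e1 := hkkg.en (by norm_num) (by norm_num)
  have e2 := hhk.two.en (by norm_num) (by norm_num)
  cases o
  · exact ⟨ok_of e1 en_zero en_zero
      ((ap_c720.mul (hkk.mul hgg (by norm_num)) (by norm_num)).en (by norm_num) (by norm_num))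
      en_zero en_zero (hhg.en (by norm_num) (by norm_num)) en_zero en_zero,
      ok_of e2 en_zero en_zero ((ap_c65.mul hkhg (by norm_num)).en (by norm_num) (by norm_num))
        en_zero en_zero en_zero en_zero en_zero⟩
  · exact ⟨ok_of e2 en_zero en_zero en_zero en_zero en_zero
      ((ap_c65.mul (hhk.mul hgg (by norm_num)) (by norm_num)).sub hhk.two (by norm_num)
        (by norm_num) (by norm_num)) en_zero en_zero,
      ok_of e1 en_zero en_zero (hg.en (by norm_num) (by norm_num)) en_zero en_zero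
        ((ap_c720.mul (hkk.mul hggg (by norm_num)) (by norm_num)).sub hkkg (by norm_num)
          (by norm_num) (by norm_num)) en_zero en_zero⟩

end

/-! ### the reference vectors -/

variable {p q r : ℕ}

theorem ap_e0 (T : M9 ℝ × M9 ℝ) (e : ℂ) :
    ap T e ![1, 0, 0] = ![(T.1.a : ℂ) + e * T.2.a, (T.1.d : ℂ) + e * T.2.d,
      (T.1.g : ℂ) + e * T.2.g] := by
  funext i
  fin_cases i <;> simp [ap, at2, toM, Matrix.mulVec, dotProduct, Fin.sum_univ_three]

theorem ref_Y (hp : 3 ≤ p) (hq : 3 ≤ q) (hr : 3 ≤ r) {s : GS} (hs : DG s) {e : ℂ}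
    (he : ‖e‖ ≤ 1 / 8) (v1 v2 : ℝ) :
    ∃ c : ℂ, c ≠ 0 ∧ ap (TYr (oriZ s) (kk p q r s.1 s.2.1) (kk p q r s.2.1 s.2.2)
      (kk p q r s.1 s.2.2) (1 - v1) v2) e ![1, 0, 0] =
        c • fv p q r false s e ![1, (v1 : ℂ), (v2 : ℂ)] := by
  obtain ⟨k1, -⟩ := kk_rng hp hq hr s.1 s.2.1 hs.1
  obtain ⟨h1, -⟩ := kk_rng hp hq hr s.2.1 s.2.2 hs.2.1
  obtain ⟨g1, -⟩ := kk_rng hp hq hr s.1 s.2.2 (Ne.symm hs.2.2)
  have hd := dS_ne hp hq hr hs he
  rw [dS, lf] at hd
  rw [fv, Fs, ap_e0]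
  generalize kk p q r s.1 s.2.1 = k at *
  generalize kk p q r s.2.1 s.2.2 = h at *
  generalize kk p q r s.1 s.2.2 = g at *
  have k0 : (k : ℂ) ≠ 0 := by exact_mod_cast (by linarith : k ≠ 0)
  have g0 : (g : ℂ) ≠ 0 := by exact_mod_cast (by linarith : g ≠ 0)
  refine ⟨(k : ℂ) ^ 2 * g * dn (oriZ s) (lamF k h g) e, mul_ne_zero (mul_ne_zero
    (pow_ne_zero 2 k0) g0) hd, ?_⟩
  cases ho : oriZ s with
  | false =>
    rw [ho] at hd
    have hD : (k : ℂ) * g * dn false (lamF k h g) e = k * g + 2 * h * e := by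
      simp only [dn, lamF, Bool.false_eq_true, if_false]
      field_simp
    simp only [Fn, FY, tF, omF, Bool.false_eq_true, if_false]
    generalize dn false (lamF k h g) e = D at *
    funext i
    fin_cases i <;> simp [TYr, lamF] <;> field_simp <;> grind
  | true =>
    rw [ho] at hd
    have hD : (k : ℂ) * g * dn true (lamF k h g) e = 2 * h + k * g * e := by
      simp only [dn, lamF, if_true]
      field_simp
    simp only [Fn, FY, tF, omF, if_true, Bool.false_eq_true, if_false]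
    generalize dn true (lamF k h g) e = D at *
    funext i
    fin_cases i <;> simp [TYr, lamF] <;> field_simp <;> grind

theorem ref_L (hp : 3 ≤ p) (hq : 3 ≤ q) (hr : 3 ≤ r) {s : GS} (hs : DG s) (e : ℂ) :
    ∃ c : ℂ, c ≠ 0 ∧ ap (TLr (oriZ s) (kk p q r s.1 s.2.1) (kk p q r s.2.1 s.2.2)
      (kk p q r s.1 s.2.2)) e ![1, 0, 0] = c • fv p q r true s e ![1, 2 / 5, 1 / 2] := by
  obtain ⟨k1, -⟩ := kk_rng hp hq hr s.1 s.2.1 hs.1
  obtain ⟨g1, -⟩ := kk_rng hp hq hr s.1 s.2.2 (Ne.symm hs.2.2)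
  rw [fv, Fs, ap_e0]
  generalize kk p q r s.1 s.2.1 = k at *
  generalize kk p q r s.2.1 s.2.2 = h at *
  generalize kk p q r s.1 s.2.2 = g at *
  have k0 : (k : ℂ) ≠ 0 := by exact_mod_cast (by linarith : k ≠ 0)
  have g0 : (g : ℂ) ≠ 0 := by exact_mod_cast (by linarith : g ≠ 0)
  cases ho : oriZ s with
  | false =>
    refine ⟨(k : ℂ) ^ 2, pow_ne_zero 2 k0, ?_⟩
    funext i
    fin_cases i <;>
      simp [TLr, Fn, FLn, Fl, z9, lamF] <;>
      field_simp <;> ring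
  | true =>
    refine ⟨(k : ℂ) ^ 2 * g, mul_ne_zero (pow_ne_zero 2 k0) g0, ?_⟩
    funext i
    fin_cases i <;>
      simp [TLr, Fn, FLn, z9] <;>
      field_simp <;> ring

theorem ref_LY (hp : 3 ≤ p) (hq : 3 ≤ q) (hr : 3 ≤ r) {s : GS} (hs : DG s) {e : ℂ}
    (he : ‖e‖ ≤ 1 / 8) :
    ∃ c : ℂ, c ≠ 0 ∧ ap (TLYr (oriZ s) (kk p q r s.1 s.2.1) (kk p q r s.2.1 s.2.2)
      (kk p q r s.1 s.2.2)) e ![1, 0, 0] =
        c • fv p q r true s e (yL (3 / 10) 1 (omF (oriZ s) (lf p q r s) e)) := by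
  obtain ⟨k1, -⟩ := kk_rng hp hq hr s.1 s.2.1 hs.1
  obtain ⟨h1, -⟩ := kk_rng hp hq hr s.2.1 s.2.2 hs.2.1
  obtain ⟨g1, -⟩ := kk_rng hp hq hr s.1 s.2.2 (Ne.symm hs.2.2)
  have hd := dS_ne hp hq hr hs he
  rw [dS, lf] at hd
  rw [fv, Fs, ap_e0, lf]
  generalize kk p q r s.1 s.2.1 = k at *
  generalize kk p q r s.2.1 s.2.2 = h at *
  generalize kk p q r s.1 s.2.2 = g at *
  have k0 : (k : ℂ) ≠ 0 := by exact_mod_cast (by linarith : k ≠ 0)
  have g0 : (g : ℂ) ≠ 0 := by exact_mod_cast (by linarith : g ≠ 0)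
  refine ⟨(k : ℂ) ^ 2 * g * ((if oriZ s then (g : ℂ) else 1) * dn (oriZ s) (lamF k h g) e),
    mul_ne_zero (mul_ne_zero (pow_ne_zero 2 k0) g0) (mul_ne_zero (by split_ifs <;> simp [g0]) hd),
    ?_⟩
  cases ho : oriZ s with
  | false =>
    rw [ho] at hd
    have hD : (k : ℂ) * g * dn false (lamF k h g) e = k * g + 2 * h * e := by
      simp only [dn, lamF, Bool.false_eq_true, if_false]
      field_simp
    simp only [Fn, FLn, Fl, omF, Bool.false_eq_true, if_false, if_true]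
    generalize dn false (lamF k h g) e = D at *
    funext i
    fin_cases i <;> simp [TLYr, yL, lamF] <;> field_simp <;> grind
  | true =>
    rw [ho] at hd
    have hD : (k : ℂ) * g * dn true (lamF k h g) e = 2 * h + k * g * e := by
      simp only [dn, lamF, if_true]
      field_simp
    simp only [Fn, FLn, Fl, omF, if_true, Bool.false_eq_true, if_false]
    generalize dn true (lamF k h g) e = D at *
    funext i
    fin_cases i <;> simp [TLYr, yL] <;> field_simp <;> grind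

/-- the three start vectors -/
def aU (i : Fin 3) : ℝ := ![7 / 10, 7 / 10 - 1 / 128, 7 / 10] i
def bU (i : Fin 3) : ℝ := ![1, 1, 1 + 1 / 128] i
def aUN (i : Fin 3) : ℕ := ![KN.a03, KN.a03e, KN.a03] i
def bUN (i : Fin 3) : ℕ := ![KN.u1N, KN.u1N, KN.b1e] i

theorem ap_aU (i : Fin 3) : Ap 1 1 (aU i) (aUN i) := by
  fin_cases i
  · exact ap_a03
  · exact ap_a03e
  · exact ap_a03

theorem ap_bU (i : Fin 3) : Ap 1 2 (bU i) (bUN i) := by
  fin_cases i
  · exact ap_b1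
  · exact ap_b1
  · exact ap_b1e

theorem UY_ab (i : Fin 3) :
    UY (3 / 10) 1 (1 / 128) i = ![1, ((1 - aU i : ℝ) : ℂ), (bU i : ℂ)] := by
  fin_cases i <;> simp [UY, aU, bU] <;> norm_num

theorem ref_UY (hp : 3 ≤ p) (hq : 3 ≤ q) (hr : 3 ≤ r) {s : GS} (hs : DG s) {e : ℂ}
    (he : ‖e‖ ≤ 1 / 8) (i : Fin 3) :
    ∃ c : ℂ, c ≠ 0 ∧ ap (TYr (oriZ s) (kk p q r s.1 s.2.1) (kk p q r s.2.1 s.2.2)
      (kk p q r s.1 s.2.2) (aU i) (bU i)) e ![1, 0, 0] =
        c • fv p q r false s e (UY (3 / 10) 1 (1 / 128) i) := by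
  have h := ref_Y hp hq hr hs he (1 - aU i) (bU i)
  rw [UY_ab]
  rwa [sub_sub_cancel] at h

end Pool.Agent.Helper94.CXF.SD
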