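import Pool.Agent.Helper94.CXF.S5

/-!
FARL, row CON: the natural number matrices of the kernel checker represent integer matrices close to
the real run matrices.
-/

set_option autoImplicit false
noncomputable section
namespace Pool.Agent.Helper94.CXF.SD

open Pool.Agent.Helper94.CXF (M9)
open Pool.Agent.Helper94.CXF

/-- `0 ≤ x ≤ X` and `N` is `2 ^ 48 x` up to `r` -/
structure Ap (r X x : ℝ) (N : ℕ) : Prop where
  lo : 0 ≤ x
  hi : x ≤ X
  er : |(N : ℝ) - 2 ^ 48 * x| ≤ r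

/-- `n` represents an integer with absolute value at most `2 ^ 54` and close to `2 ^ 48 x` -/
def En (x : ℝ) (n : ℕ) : Prop :=
  ∃ z : ℤ, Rp n z ∧ |z| ≤ 2 ^ 54 ∧ |(z : ℝ) - 2 ^ 48 * x| ≤ 256

theorem rp_nat (n : ℕ) : Rp n (n : ℤ) := by
  unfold Rp Pool.Agent.Helper17.PAK.Rep
  exact Int.ModEq.refl _

section
variable {r s X Y x y : ℝ} {a b : ℕ}

theorem Ap.nonneg (h : Ap r X x a) : 0 ≤ r := (abs_nonneg _).trans h.er

theorem Ap.X0 (h : Ap r X x a) : 0 ≤ X := h.lo.trans h.hi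

theorem Ap.mono {r' X' : ℝ} (h : Ap r X x a) (h1 : r ≤ r') (h2 : X ≤ X') : Ap r' X' x a :=
  ⟨h.lo, h.hi.trans h2, h.er.trans h1⟩

theorem Ap.mul (hx : Ap r X x a) (hy : Ap s Y y b) (h : r * s ≤ 2 ^ 48) :
    Ap (r * Y + s * X + 2) (X * Y) (x * y) (KN.mu a b) := by
  refine ⟨mul_nonneg hx.lo hy.lo, mul_le_mul hx.hi hy.hi hy.lo hx.X0, ?_⟩
  have e : KN.mu a b = a * b / 2 ^ 48 := by
    change (a * b) >>> 48 = _
    rw [Nat.shiftRight_eq_div_pow]
  have r0 := hx.nonneg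
  have s0 := hy.nonneg
  have h1 : ((a * b / 2 ^ 48 : ℕ) : ℝ) * 2 ^ 48 ≤ (a : ℝ) * b := by
    have : a * b / 2 ^ 48 * 2 ^ 48 ≤ a * b := Nat.div_mul_le_self _ _
    exact_mod_cast this
  have h2 : (a : ℝ) * b ≤ ((a * b / 2 ^ 48 : ℕ) : ℝ) * 2 ^ 48 + 2 ^ 48 := by
    have : a * b < (a * b / 2 ^ 48 + 1) * 2 ^ 48 := by
      have := Nat.lt_div_mul_add (a := a * b) (b := 2 ^ 48) (by positivity)
      linarith
    have h3 : ((a * b : ℕ) : ℝ) < (((a * b / 2 ^ 48 + 1) * 2 ^ 48 : ℕ) : ℝ) := by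
      exact_mod_cast this
    push_cast at h3 ⊢
    linarith
  rw [e]
  generalize ((a * b / 2 ^ 48 : ℕ) : ℝ) = m at *
  have e1 : (a : ℝ) * b - 2 ^ 48 * (2 ^ 48 * (x * y)) =
      2 ^ 48 * (x * ((b : ℝ) - 2 ^ 48 * y)) + 2 ^ 48 * (((a : ℝ) - 2 ^ 48 * x) * y) +
        ((a : ℝ) - 2 ^ 48 * x) * ((b : ℝ) - 2 ^ 48 * y) := by ring
  have b1 : |x * ((b : ℝ) - 2 ^ 48 * y)| ≤ X * s := by
    rw [abs_mul, abs_of_nonneg hx.lo]
    exact mul_le_mul hx.hi hy.er (abs_nonneg _) hx.X0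
  have b2 : |((a : ℝ) - 2 ^ 48 * x) * y| ≤ r * Y := by
    rw [abs_mul, abs_of_nonneg hy.lo]
    exact mul_le_mul hx.er hy.hi hy.lo r0
  have b3 : |((a : ℝ) - 2 ^ 48 * x) * ((b : ℝ) - 2 ^ 48 * y)| ≤ 2 ^ 48 := by
    rw [abs_mul]
    exact (mul_le_mul hx.er hy.er (abs_nonneg _) r0).trans h
  have b1 := abs_le.1 b1
  have b2 := abs_le.1 b2
  have b3 := abs_le.1 b3
  refine abs_le.2 ⟨?_, ?_⟩
  · refine le_of_mul_le_mul_left ?_ (by positivity : (0 : ℝ) < 2 ^ 48)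
    linarith
  · refine le_of_mul_le_mul_left ?_ (by positivity : (0 : ℝ) < 2 ^ 48)
    linarith

theorem Ap.add (hx : Ap r X x a) (hy : Ap s Y y b) : Ap (r + s) (X + Y) (x + y) (Nat.add a b) := by
  refine ⟨add_nonneg hx.lo hy.lo, add_le_add hx.hi hy.hi, ?_⟩
  have e : ((Nat.add a b : ℕ) : ℝ) = a + b := by
    change ((a + b : ℕ) : ℝ) = _
    push_cast
    rfl
  rw [e]
  have h1 := abs_le.1 hx.er
  have h2 := abs_le.1 hy.er
  exact abs_le.2 ⟨by linarith, by linarith⟩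

theorem Ap.two (hx : Ap r X x a) : Ap (2 * r) (2 * X) (2 * x) (Nat.mul (nat_lit 2) a) := by
  refine ⟨mul_nonneg (by norm_num) hx.lo, by linarith [hx.hi], ?_⟩
  have e : ((Nat.mul (nat_lit 2) a : ℕ) : ℝ) = 2 * a := by
    change ((2 * a : ℕ) : ℝ) = _
    push_cast
    rfl
  rw [e]
  have h1 := abs_le.1 hx.er
  exact abs_le.2 ⟨by linarith, by linarith⟩

theorem Ap.shr (hx : Ap r X x a) (j : ℕ) :
    Ap (r / 2 ^ j + 1) (X / 2 ^ j) (x / 2 ^ j) (Nat.shiftRight a j) := by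
  have p0 : (0 : ℝ) < 2 ^ j := by positivity
  refine ⟨div_nonneg hx.lo p0.le, div_le_div_of_nonneg_right hx.hi p0.le, ?_⟩
  have e : Nat.shiftRight a j = a / 2 ^ j := by
    change a >>> j = _
    rw [Nat.shiftRight_eq_div_pow]
  have h1 : ((a / 2 ^ j : ℕ) : ℝ) * 2 ^ j ≤ (a : ℝ) := by
    have : a / 2 ^ j * 2 ^ j ≤ a := Nat.div_mul_le_self _ _
    exact_mod_cast this
  have h2 : (a : ℝ) ≤ ((a / 2 ^ j : ℕ) : ℝ) * 2 ^ j + 2 ^ j := by
    have : a < (a / 2 ^ j + 1) * 2 ^ j := by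
      have := Nat.lt_div_mul_add (a := a) (b := 2 ^ j) (by positivity)
      linarith
    have h3 : (a : ℝ) < (((a / 2 ^ j + 1) * 2 ^ j : ℕ) : ℝ) := by
      exact_mod_cast this
    push_cast at h3 ⊢
    linarith
  rw [e]
  generalize ((a / 2 ^ j : ℕ) : ℝ) = m at *
  have h3 := abs_le.1 hx.er
  have e2 : 2 ^ 48 * (x / 2 ^ j) * 2 ^ j = 2 ^ 48 * x := by field_simp
  have e3 : (r / 2 ^ j + 1) * 2 ^ j = r + 2 ^ j := by field_simp
  refine abs_le.2 ⟨?_, ?_⟩
  · refine le_of_mul_le_mul_right ?_ p0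
    rw [sub_mul, e2, neg_mul, e3]
    linarith
  · refine le_of_mul_le_mul_right ?_ p0
    rw [sub_mul, e2, e3]
    linarith

theorem Ap.congr (h : Ap r X x a) (e : x = y) : Ap r X y a := e ▸ h

/-! ### entries -/

theorem En.congr (h : En x a) (e : x = y) : En y a := e ▸ h

theorem Ap.en (h : Ap r X x a) (h1 : r ≤ 256) (h2 : X ≤ 60) : En x a := by
  refine ⟨(a : ℤ), rp_nat a, ?_, ?_⟩
  · have h3 := abs_le.1 h.er
    have h4 : (a : ℝ) ≤ 2 ^ 54 := by
      have := h.hi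
      have : (a : ℝ) ≤ 2 ^ 48 * 60 + 256 := by linarith
      refine this.trans ?_
      norm_num
    rw [abs_of_nonneg (by positivity)]
    exact_mod_cast h4
  · have := h.er.trans h1
    exact_mod_cast this

theorem En.neg (h : En x a) : En (-x) (KN.nm a) := by
  obtain ⟨z, h1, h2, h3⟩ := h
  refine ⟨-z, rp_nm h1, by rwa [abs_neg], ?_⟩
  have h3 := abs_le.1 h3
  push_cast
  exact abs_le.2 ⟨by linarith, by linarith⟩

theorem Ap.sub (hx : Ap r X x a) (hy : Ap s Y y b) (h : r + s ≤ 256) (h1 : X ≤ 60)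
    (h2 : Y ≤ 60) : En (x - y) (KN.sb a b) := by
  refine ⟨(a : ℤ) - (b : ℤ), rp_sb (rp_nat a) (rp_nat b), ?_, ?_⟩
  · have h3 := abs_le.1 hx.er
    have h4 := abs_le.1 hy.er
    have r0 := hx.nonneg
    have s0 := hy.nonneg
    have h5 : |(a : ℝ) - b| ≤ 2 ^ 54 := by
      have := hx.hi
      have := hy.hi
      have := hx.lo
      have := hy.lo
      rw [abs_le]
      norm_num at *
      constructor <;> linarith
    have h6 : |(((a : ℤ) - (b : ℤ) : ℤ) : ℝ)| ≤ ((2 ^ 54 : ℤ) : ℝ) := by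
      refine le_trans (le_of_eq ?_) (h5.trans (le_of_eq ?_))
      · push_cast
        rfl
      · norm_num
    exact_mod_cast h6
  · have h3 := abs_le.1 hx.er
    have h4 := abs_le.1 hy.er
    push_cast
    exact abs_le.2 ⟨by linarith, by linarith⟩

theorem en_zero : En 0 (nat_lit 0) := ⟨0, rp_zero, by norm_num, by norm_num⟩

theorem ap_one : Ap 0 1 1 KN.u1N := by
  refine ⟨by norm_num, le_refl _, ?_⟩
  have e : ((KN.u1N : ℕ) : ℝ) = 281474976710656 := by
    change ((281474976710656 : ℕ) : ℝ) = _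
    norm_num
  rw [e]
  norm_num

theorem en_one : En 1 KN.u1N := ap_one.en (by norm_num) (by norm_num)

/-! ### matrices -/

theorem ok_of {T : M9 ℝ} {N : M9 ℕ} (ha : En T.a N.a) (hb : En T.b N.b) (hc : En T.c N.c)
    (hd : En T.d N.d) (he : En T.e N.e) (hf : En T.f N.f) (hg : En T.g N.g) (hh : En T.h N.h)
    (hi : En T.i N.i) : ∃ Z, OkT T N Z := by
  obtain ⟨a, a1, a2, a3⟩ := ha
  obtain ⟨b, b1, b2, b3⟩ := hb
  obtain ⟨c, c1, c2, c3⟩ := hc
  obtain ⟨d, d1, d2, d3⟩ := hd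
  obtain ⟨e, e1, e2, e3⟩ := he
  obtain ⟨f, f1, f2, f3⟩ := hf
  obtain ⟨g, g1, g2, g3⟩ := hg
  obtain ⟨h, h1, h2, h3⟩ := hh
  obtain ⟨i, i1, i2, i3⟩ := hi
  exact ⟨⟨a, b, c, d, e, f, g, h, i⟩, ⟨a1, b1, c1, d1, e1, f1, g1, h1, i1⟩,
    ⟨a2, b2, c2, d2, e2, f2, g2, h2, i2⟩, ⟨a3, b3, c3, d3, e3, f3, g3, h3, i3⟩⟩

theorem ok_of' {T : M9 ℝ} {N : M9 ℕ} (ha : Ap r X T.a N.a) (h1 : r ≤ 256) (h2 : X ≤ 60)
    (h0 : r < 2 ^ 48 * T.a) (hb : En T.b N.b) (hc : En T.c N.c)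
    (hd : En T.d N.d) (he : En T.e N.e) (hf : En T.f N.f) (hg : En T.g N.g) (hh : En T.h N.h)
    (hi : En T.i N.i) : ∃ Z, OkT T N Z ∧ 0 < Z.a := by
  have a0 : 0 < (N.a : ℝ) := by
    have := abs_le.1 ha.er
    linarith
  have a2 : |((N.a : ℕ) : ℤ)| ≤ 2 ^ 54 := by
    have h3 := abs_le.1 ha.er
    have h4 : (N.a : ℝ) ≤ 2 ^ 54 := by
      have := ha.hi
      have : (N.a : ℝ) ≤ 2 ^ 48 * 60 + 256 := by linarith
      refine this.trans ?_
      norm_num
    rw [abs_of_nonneg (by positivity)]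
    exact_mod_cast h4
  have a3 : |(((N.a : ℕ) : ℤ) : ℝ) - 2 ^ 48 * T.a| ≤ 256 := by
    have := ha.er.trans h1
    exact_mod_cast this
  obtain ⟨b, b1, b2, b3⟩ := hb
  obtain ⟨c, c1, c2, c3⟩ := hc
  obtain ⟨d, d1, d2, d3⟩ := hd
  obtain ⟨e, e1, e2, e3⟩ := he
  obtain ⟨f, f1, f2, f3⟩ := hf
  obtain ⟨g, g1, g2, g3⟩ := hg
  obtain ⟨h, h1, h2, h3⟩ := hh
  obtain ⟨i, i1, i2, i3⟩ := hi
  exact ⟨⟨(N.a : ℤ), b, c, d, e, f, g, h, i⟩, ⟨⟨rp_nat _, b1, c1, d1, e1, f1, g1, h1, i1⟩,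
    ⟨a2, b2, c2, d2, e2, f2, g2, h2, i2⟩, ⟨a3, b3, c3, d3, e3, f3, g3, h3, i3⟩⟩,
    by
      change (0 : ℤ) < (N.a : ℤ)
      exact_mod_cast a0⟩

theorem ok_mk {r0 r1 r2 s0 s1 s2 n0 n1 n2 : ℝ} {R0 R1 R2 S0 S1 S2 N0 N1 N2 : ℕ} (tg : Bool)
    (h1 : En r0 R0) (h2 : En r1 R1) (h3 : En r2 R2) (h4 : En s0 S0) (h5 : En s1 S1)
    (h6 : En s2 S2) (h7 : En n0 N0) (h8 : En n1 N1) (h9 : En n2 N2) :
    ∃ Z, OkT (mkM tg r0 r1 r2 s0 s1 s2 n0 n1 n2) (KN.mkN tg R0 R1 R2 S0 S1 S2 N0 N1 N2) Z := by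
  cases tg
  · exact ok_of h1 h2 h3 h4 h5 h6 h7 h8 h9
  · exact ok_of h1 h2 h3 h7 h8 h9 h4 h5 h6

theorem ok_z9 : ∃ Z, OkT ⟨0, 0, 0, 0, 0, 0, 0, 0, 0⟩ KN.z9M Z :=
  ok_of en_zero en_zero en_zero en_zero en_zero en_zero en_zero en_zero en_zero

end

section
variable {k h g u1 u0 um e1 e0 em : ℝ} {kN hN gN u1N u0N umN e1N e0N emN : ℕ}

/-- the run matrices -/
theorem ok_TR (o L tg : Bool) (hh : Ap 1 2 h hN) (hg : Ap 1 2 g gN) (hu1 : Ap 16 3 u1 u1N)
    (hu0 : Ap 16 3 u0 u0N) (hum : Ap 16 3 um umN) (he1 : Ap 24 9 e1 e1N) (he0 : Ap 24 9 e0 e0N)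
    (hem : Ap 24 9 em emN) :
    (∃ Z, OkT (TRr o L tg h g u1 u0 um e1 e0 em).1
      (KN.TRN o L tg hN gN u1N u0N umN e1N e0N emN).1 Z) ∧
    (∃ Z, OkT (TRr o L tg h g u1 u0 um e1 e0 em).2
      (KN.TRN o L tg hN gN u1N u0N umN e1N e0N emN).2 Z) := by
  have hhg := hh.mul hg (by norm_num)
  have hgg := hg.mul hg (by norm_num)
  cases o
  · constructor
    · exact ok_mk tg ((he1.mul hg (by norm_num)).en (by norm_num) (by norm_num))
        ((hu0.en (by norm_num) (by norm_num)).neg) en_zero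
        ((he0.mul hg (by norm_num)).en (by norm_num) (by norm_num))
        ((hum.en (by norm_num) (by norm_num)).neg) en_zero en_one en_zero en_zero
    · exact ok_mk tg ((he0.mul hh (by norm_num)).en (by norm_num) (by norm_num)) en_zero
        (hu1.en (by norm_num) (by norm_num))
        ((hem.mul hh (by norm_num)).en (by norm_num) (by norm_num)) en_zero
        (hu0.en (by norm_num) (by norm_num)) en_zero en_zero en_zero
  · cases L
    · constructor
      · exact ok_mk tg ((he0.mul hh (by norm_num)).en (by norm_num) (by norm_num)) en_zero en_zero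
          ((hem.mul hh (by norm_num)).en (by norm_num) (by norm_num)) en_zero en_zero
          en_one en_zero en_zero
      · exact ok_mk tg ((he1.mul hg (by norm_num)).en (by norm_num) (by norm_num))
          (hu1.en (by norm_num) (by norm_num)) ((hu0.en (by norm_num) (by norm_num)).neg)
          ((he0.mul hg (by norm_num)).en (by norm_num) (by norm_num))
          (hu0.en (by norm_num) (by norm_num)) ((hum.en (by norm_num) (by norm_num)).neg)
          en_zero en_zero en_zero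
    · constructor
      · exact ok_mk tg ((he0.mul hhg (by norm_num)).en (by norm_num) (by norm_num))
          ((hu1.mul hhg (by norm_num)).en (by norm_num) (by norm_num)) en_zero
          ((hem.mul hhg (by norm_num)).en (by norm_num) (by norm_num))
          ((hu0.mul hhg (by norm_num)).en (by norm_num) (by norm_num)) en_zero
          (hg.en (by norm_num) (by norm_num)) en_zero en_zero
      · exact ok_mk tg ((he1.mul hgg (by norm_num)).sub hu0 (by norm_num) (by norm_num)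
            (by norm_num)) en_zero ((hu0.en (by norm_num) (by norm_num)).neg)
          ((he0.mul hgg (by norm_num)).sub hum (by norm_num) (by norm_num) (by norm_num)) en_zero
          ((hum.en (by norm_num) (by norm_num)).neg) en_zero en_zero en_zero

theorem ok_TNm (hk : Ap 1 2 k kN) (hg : Ap 1 2 g gN) : ∃ Z, OkT (TNm k g) (KN.TNmN kN gN) Z := by
  have hgg := hg.mul hg (by norm_num)
  have hgk := hg.mul hk (by norm_num)
  exact ok_of (hgg.en (by norm_num) (by norm_num)) (hgk.en (by norm_num) (by norm_num))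
    (hg.en (by norm_num) (by norm_num)).neg en_one en_zero en_zero
    (hgg.en (by norm_num) (by norm_num)).neg en_zero (hg.en (by norm_num) (by norm_num))

theorem ok_TNp (hk : Ap 1 2 k kN) (hg : Ap 1 2 g gN) :
    (∃ Z, OkT (TNp k g).1 (KN.TNpN kN gN).1 Z) ∧ (∃ Z, OkT (TNp k g).2 (KN.TNpN kN gN).2 Z) := by
  constructor
  · exact ok_of (hg.en (by norm_num) (by norm_num)) en_one.neg en_zero en_zero en_zero en_zero
      en_one en_zero en_zero
  · exact ok_of en_zero en_zero (hk.en (by norm_num) (by norm_num)) en_zero en_zero en_one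
      en_zero en_zero en_zero

theorem ok_TPp (hk : Ap 1 2 k kN) (hh : Ap 1 2 h hN) (hg : Ap 1 2 g gN) :
    (∃ Z, OkT (TPp k h g).1 (KN.TPpN kN hN gN).1 Z) ∧
      (∃ Z, OkT (TPp k h g).2 (KN.TPpN kN hN gN).2 Z) := by
  have hkg := hk.mul hg (by norm_num)
  have hkk := hk.mul hk (by norm_num)
  constructor
  · exact ok_of (hkg.en (by norm_num) (by norm_num)) (hk.en (by norm_num) (by norm_num)).neg
      en_zero en_zero en_zero en_zero (hg.en (by norm_num) (by norm_num)) en_one.neg en_zero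
  · exact ok_of (hh.en (by norm_num) (by norm_num)) en_zero
      (hkk.sub ap_one (by norm_num) (by norm_num) (by norm_num)) en_one en_zero en_zero en_zero
      en_zero (hk.en (by norm_num) (by norm_num))

theorem en_kk1 (hk : Ap 1 2 k kN) : En (k * (k * k - 1)) (KN.kk1 kN) := by
  have hkk := hk.mul hk (by norm_num)
  have h3 := hk.mul hkk (by norm_num)
  exact (h3.sub hk (by norm_num) (by norm_num) (by norm_num)).congr (by ring)

theorem ok_TTm (hk : Ap 1 2 k kN) (hh : Ap 1 2 h hN) (hg : Ap 1 2 g gN) :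
    (∃ Z, OkT (TTm k h g).1 (KN.TTmN kN hN gN).1 Z) ∧
      (∃ Z, OkT (TTm k h g).2 (KN.TTmN kN hN gN).2 Z) := by
  have hkh := hk.mul hh (by norm_num)
  have hkk := hk.mul hk (by norm_num)
  have hkkg := hkk.mul hg (by norm_num)
  constructor
  · exact ok_of (hkh.en (by norm_num) (by norm_num)) en_zero en_zero en_zero en_zero en_zero
      en_zero en_zero en_zero
  · exact ok_of (hkkg.en (by norm_num) (by norm_num)) (en_kk1 hk)
      (hkk.en (by norm_num) (by norm_num)).neg (hg.en (by norm_num) (by norm_num))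
      (hk.en (by norm_num) (by norm_num)) en_one.neg (hkkg.en (by norm_num) (by norm_num)).neg
      (en_kk1 hk).neg (hkk.en (by norm_num) (by norm_num))

theorem ok_TUm (k1 : 1 ≤ k) (h1 : 1 ≤ h) (g1 : 1 ≤ g) (hk : Ap 1 2 k kN) (hh : Ap 1 2 h hN)
    (hg : Ap 1 2 g gN) :
    (∃ Z, OkT (TUm k h g).1 (KN.TUmN kN hN gN).1 Z ∧ 0 < Z.a) ∧
      (∃ Z, OkT (TUm k h g).2 (KN.TUmN kN hN gN).2 Z) := by
  have hkk := hk.mul hk (by norm_num)
  have hhg := hh.mul hg (by norm_num)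
  have hgg := hg.mul hg (by norm_num)
  have hP := hk.mul hhg (by norm_num)
  have hpc : En (k * (h * g) * (k * k - 1)) (KN.pc (KN.mu kN (KN.mu hN gN)) kN) :=
    ((hP.mul hkk (by norm_num)).sub hP (by norm_num) (by norm_num) (by norm_num)).congr (by ring)
  have hq := hkk.mul hgg (by norm_num)
  constructor
  · have h2 : 1 ≤ k * (h * g) := by
      have : 1 ≤ h * g := one_le_mul_of_one_le_of_one_le h1 g1
      exact one_le_mul_of_one_le_of_one_le k1 this
    exact ok_of' hP (by norm_num) (by norm_num)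
      (by
        change _ < 2 ^ 48 * (k * (h * g))
        norm_num
        linarith) hpc en_zero en_zero
      (hP.en (by norm_num) (by norm_num)) en_zero en_zero hpc.neg en_zero
  · have ha : En (k * k * (g * g - 1)) (KN.sb (KN.mu (KN.mu kN kN) (KN.mu gN gN)) (KN.mu kN kN)) :=
      (hq.sub hkk (by norm_num) (by norm_num) (by norm_num)).congr (by ring)
    have hg' : En (-(k * k * (g * g - 1)))
        (KN.sb (KN.mu kN kN) (KN.mu (KN.mu kN kN) (KN.mu gN gN))) :=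
      (hkk.sub hq (by norm_num) (by norm_num) (by norm_num)).congr (by ring)
    exact ok_of ha en_zero
      (hkk.en (by norm_num) (by norm_num)).neg
      (hgg.sub ap_one (by norm_num) (by norm_num) (by norm_num)) en_zero en_one.neg
      hg' en_zero
      (hkk.en (by norm_num) (by norm_num))

end

end Pool.Agent.Helper94.CXF.SD
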