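import Pool.Agent.Helper60.CXF.Con2
import Pool.Agent.Helper51.CXF.Tab
import Pool.Agent.Helper94.CXF.S12

/-!
FARL, row CON, third part: the approximations of a class with orders at most nine.
-/

set_option autoImplicit false
noncomputable section
namespace Pool.Agent.Helper94.CXF.SD

open Pool.Agent.Helper6.MONO
open Pool.Agent.Helper21.SUP (GS DG DG_nx)
open Pool.Agent.Helper21.SUP renaming nx → nxs
open Pool.Agent.Helper94.CXF (M9)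
open Pool.Agent.Helper94.CXF
open Pool.Agent.Helper6.MONO.SV (UY)

variable {p q r : ℕ}

theorem mm_le9 (hp : p ≤ 9) (hq : q ≤ 9) (hr : r ≤ 9) (i j : Fin 3) : mm p q r i j ≤ 9 := by
  fin_cases i <;> fin_cases j <;> simp_all [mm]

theorem tk_le9 {M : ℕ} (h : M ≤ 9) : KN.nth KN.tk M ≤ 2 ^ 49 := by
  interval_cases M <;> decide +kernel

/-- conditions on a class -/
structure C9 (p q r : ℕ) : Prop where
  hp : 3 ≤ p
  hq : 3 ≤ q
  hr : 3 ≤ r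
  hp9 : p ≤ 9
  hq9 : q ≤ 9
  hr9 : r ≤ 9

theorem ap_kk (c : C9 p q r) {i j : Fin 3} (h : i ≠ j) : Ap 1 2 (kk p q r i j) (kN p q r i j) := by
  obtain ⟨h1, h2⟩ := kk_rng c.hp c.hq c.hr i j h
  exact ⟨by linarith, h2.le, tab_k (LNI_mm c.hp c.hq c.hr i j h) (mm_le9 c.hp9 c.hq9 c.hr9 i j)⟩

theorem ap_u {M : ℕ} (h3 : 3 ≤ M) (h9 : M ≤ 9) {j : ℕ} (hj : j ≤ M) :
    Ap 16 3 (uC (Kp M) j) (KN.nth (KN.nthL KN.tu M) j) :=
  ⟨(tab_u h3 h9 hj).2.1, (tab_u h3 h9 hj).2.2, (tab_u h3 h9 hj).1⟩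

theorem ap_e {M : ℕ} (h3 : 3 ≤ M) (h9 : M ≤ 9) {j : ℕ} (hj : j + 1 ≤ M) :
    Ap 24 9 (eC (Kp M) j) (KN.nth (KN.nthL KN.te M) j) :=
  ⟨(tab_e h3 h9 hj).2.1, (tab_e h3 h9 hj).2.2, (tab_e h3 h9 hj).1⟩

theorem ex2 {A B : M9 ℤ → Prop} (h : (∃ Z, A Z) ∧ (∃ Z, B Z)) : ∃ Z0 Z1, A Z0 ∧ B Z1 := by
  obtain ⟨⟨a, ha⟩, b, hb⟩ := h
  exact ⟨a, b, ha, hb⟩

theorem tabOk_of (c : C9 p q r) : TabOk p q r := by
  refine ⟨?_, ?_, ?_, ?_, ?_, ?_, ?_⟩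
  · intro s hs L i hi
    have h3 : 3 ≤ mm p q r s.1 s.2.1 := LNI_mm c.hp c.hq c.hr _ _ hs.1
    have h9 : mm p q r s.1 s.2.1 ≤ 9 := mm_le9 c.hp9 c.hq9 c.hr9 _ _
    exact ex2 (ok_TR (oriZ s) L (oriZ (nxs s (i + 3))) (ap_kk c hs.2.1)
      (ap_kk c (Ne.symm hs.2.2)) (ap_u h3 h9 (j := i + 3) (by omega))
      (ap_u h3 h9 (j := i + 2) (by omega)) (ap_u h3 h9 (j := i + 1) (by omega))
      (ap_e h3 h9 (j := i + 2) (by omega)) (ap_e h3 h9 (j := i + 1) (by omega))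
      (ap_e h3 h9 (j := i) (by omega)))
  · intro s hs
    exact ok_TNm (ap_kk c hs.1) (ap_kk c (Ne.symm hs.2.2))
  · intro s hs
    exact ex2 (ok_TNp (ap_kk c hs.1) (ap_kk c (Ne.symm hs.2.2)))
  · intro s hs
    exact ex2 (ok_TPp (ap_kk c hs.1) (ap_kk c hs.2.1) (ap_kk c (Ne.symm hs.2.2)))
  · intro s hs
    exact ex2 (ok_TTm (ap_kk c hs.1) (ap_kk c hs.2.1) (ap_kk c (Ne.symm hs.2.2)))
  · intro s hs
    obtain ⟨⟨a, ha, -⟩, b, hb⟩ := ok_TUm (kk_rng c.hp c.hq c.hr _ _ hs.1).1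
      (kk_rng c.hp c.hq c.hr _ _ hs.2.1).1 (kk_rng c.hp c.hq c.hr _ _ (Ne.symm hs.2.2)).1
      (ap_kk c hs.1) (ap_kk c hs.2.1) (ap_kk c (Ne.symm hs.2.2))
    exact ⟨a, b, ha, hb⟩
  · intro s hs o
    have hk := ap_kk c hs.1
    have hh := ap_kk c hs.2.1
    have hg := ap_kk c (Ne.symm hs.2.2)
    have k1 := (kk_rng c.hp c.hq c.hr _ _ hs.1).1
    have g1 := (kk_rng c.hp c.hq c.hr _ _ (Ne.symm hs.2.2)).1
    have lk : kN p q r s.1 s.2.1 ≤ 2 ^ 49 := tk_le9 (mm_le9 c.hp9 c.hq9 c.hr9 _ _)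
    have lh : kN p q r s.2.1 s.2.2 ≤ 2 ^ 49 := tk_le9 (mm_le9 c.hp9 c.hq9 c.hr9 _ _)
    have lg : kN p q r s.1 s.2.2 ≤ 2 ^ 49 := tk_le9 (mm_le9 c.hp9 c.hq9 c.hr9 _ _)
    rw [lf]
    generalize kk p q r s.1 s.2.1 = k at *
    generalize kk p q r s.2.1 s.2.2 = h at *
    generalize kk p q r s.1 s.2.2 = g at *
    generalize kN p q r s.1 s.2.1 = kn at *
    generalize kN p q r s.2.1 s.2.2 = hn at *
    generalize kN p q r s.1 s.2.2 = gn at *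
    have k0 : (k : ℂ) ≠ 0 := by exact_mod_cast (by linarith : k ≠ 0)
    have g0 : (g : ℂ) ≠ 0 := by exact_mod_cast (by linarith : g ≠ 0)
    have e1 : |((KN.mu kn gn : ℕ) : ℝ) - 2 ^ 48 * (k * g)| ≤ 16 :=
      (hk.mul hg (by norm_num)).er.trans (by norm_num)
    have e2 : |((Nat.mul (nat_lit 2) hn : ℕ) : ℝ) - 2 ^ 48 * (2 * h)| ≤ 16 :=
      hh.two.er.trans (by norm_num)
    have l1 : KN.mu kn gn ≤ 2 ^ 50 := by
      have e : KN.mu kn gn = kn * gn / 2 ^ 48 := by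
        change (kn * gn) >>> 48 = _
        rw [Nat.shiftRight_eq_div_pow]
      rw [e]
      refine Nat.div_le_of_le_mul ?_
      refine (Nat.mul_le_mul lk lg).trans ?_
      norm_num
    have l2 : Nat.mul (nat_lit 2) hn ≤ 2 ^ 50 := by
      change 2 * hn ≤ _
      omega
    cases o
    · refine ⟨k * g, 2 * h, e1, e2, l1, l2, fun e => ?_⟩
      simp only [dn, lamF, Bool.false_eq_true, if_false]
      push_cast
      field_simp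
    · refine ⟨2 * h, k * g, e2, e1, l2, l1, fun e => ?_⟩
      simp only [dn, lamF, if_true]
      push_cast
      field_simp

theorem refP_Y (c : C9 p q r) {s : GS} (hs : DG s) (i : Fin 3) :
    RefP (KN.TYN (oriZ s) (kN p q r s.1 s.2.1) (kN p q r s.2.1 s.2.2) (kN p q r s.1 s.2.2)
      (aUN i) (bUN i)) (fun e => fv p q r false s e (UY (3 / 10) 1 (1 / 128) i)) := by
  obtain ⟨Z0, Z1, h0, h1⟩ := ex2 (ok_TY (oriZ s) (ap_kk c hs.1) (ap_kk c hs.2.1)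
    (ap_kk c (Ne.symm hs.2.2)) (ap_aU i) (ap_bU i))
  exact ⟨_, Z0, Z1, h0, h1, fun e he => ref_UY c.hp c.hq c.hr hs he i⟩

theorem refOk_of (c : C9 p q r) : RefOk p q r := by
  refine ⟨?_, ?_, ?_, ?_, ?_⟩
  · intro s hs
    have h := refP_Y c hs 0
    have e : UY (3 / 10) 1 (1 / 128) 0 = ![1, 3 / 10, 1] := by
      simp [UY]
    rw [e] at h
    exact h
  · intro s hs
    have h := refP_Y c hs 1
    have e : UY (3 / 10) 1 (1 / 128) 1 = ![1, 3 / 10 + 1 / 128, 1] := by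
      simp [UY]
    rw [e] at h
    exact h
  · intro s hs
    have h := refP_Y c hs 2
    have e : UY (3 / 10) 1 (1 / 128) 2 = ![1, 3 / 10, 1 + 1 / 128] := by
      simp [UY]
    rw [e] at h
    exact h
  · intro s hs
    obtain ⟨Z0, Z1, h0, h1⟩ := ex2 (ok_TL (oriZ s) (ap_kk c hs.1) (ap_kk c hs.2.1)
      (ap_kk c (Ne.symm hs.2.2)))
    exact ⟨_, Z0, Z1, h0, h1, fun e _ => ref_L c.hp c.hq c.hr hs e⟩
  · intro s hs
    obtain ⟨Z0, Z1, h0, h1⟩ := ex2 (ok_TLY (oriZ s) (ap_kk c hs.1) (ap_kk c hs.2.1)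
      (ap_kk c (Ne.symm hs.2.2)))
    exact ⟨_, Z0, Z1, h0, h1, fun e he => ref_LY c.hp c.hq c.hr hs he⟩

end Pool.Agent.Helper94.CXF.SD
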